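import Mathlib
import Pool.Agent.Y293.FA.Stm
import Pool.Agent.Y293.FA.Stm2
import Pool.Agent.Y293.FA.Base

/-!
# Integrable maximal function of the projections
-/

namespace Pool.Agent.Y462.FA

open MeasureTheory Set Filter Topology
open scoped ENNReal
open Pool.Agent.Y293.FA

theorem continuous_pr : Continuous fun p : ℝ × ℂ => pr p.1 p.2 := by
  unfold pr
  fun_prop

theorem continuous_pr' (θ : ℝ) : Continuous (pr θ) := by
  unfold pr
  fun_prop

theorem pr_add_two_pi (θ : ℝ) : pr (θ + 2 * Real.pi) = pr θ := by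
  funext z
  simp [pr, Real.cos_add_two_pi, Real.sin_add_two_pi]

/-- Joint measurability of the masses. -/
theorem measurable_mass2 (δ : ℝ) (μ : Measure ℂ) [IsProbabilityMeasure μ] :
    Measurable fun p : ℝ × ℝ => μ {z | |pr p.1 z - p.2| ≤ δ / 2} := by
  have hS : MeasurableSet {q : (ℝ × ℝ) × ℂ | |pr q.1.1 q.2 - q.1.2| ≤ δ / 2} := by
    refine measurableSet_le ?_ measurable_const
    have h1 : Measurable fun q : (ℝ × ℝ) × ℂ => pr q.1.1 q.2 :=
      continuous_pr.measurable.comp (by fun_prop : Measurable fun q : (ℝ × ℝ) × ℂ => (q.1.1, q.2))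
    have h2 : Measurable fun q : (ℝ × ℝ) × ℂ => q.1.2 := by fun_prop
    exact (h1.sub h2).abs
  exact measurable_measure_prodMk_left (ν := μ) hS

theorem measurable_av2 (δ : ℝ) (μ : Measure ℂ) [IsProbabilityMeasure μ] :
    Measurable fun p : ℝ × ℝ => av δ (μ.map (pr p.1)) p.2 := by
  have h : (fun p : ℝ × ℝ => av δ (μ.map (pr p.1)) p.2) =
      fun p : ℝ × ℝ => δ⁻¹ * μ.real {z | |pr p.1 z - p.2| ≤ δ / 2} := by
    funext p
    exact av_map μ (continuous_pr' p.1).measurable δ p.2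
  rw [h]
  exact ((measurable_mass2 δ μ).ennreal_toReal).const_mul _

instance instMap (μ : Measure ℂ) [IsProbabilityMeasure μ] (θ : ℝ) :
    IsProbabilityMeasure (μ.map (pr θ)) :=
  Measure.isProbabilityMeasure_map (continuous_pr' θ).measurable.aemeasurable

theorem ofReal_qq {δ : ℝ} (hδ : 0 < δ) (m : Measure ℝ) [IsFiniteMeasure m] :
    ENNReal.ofReal (qq δ m) = ∫⁻ t, ENNReal.ofReal (av δ m t ^ 2) :=
  ofReal_integral_eq_lintegral_ofReal (integrable_av_sq hδ m) (ae_of_all _ fun _ => sq_nonneg _)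

theorem ofReal_dd {a b : ℝ} (ha : 0 < a) (hb : 0 < b) (m : Measure ℝ) [IsFiniteMeasure m] :
    ENNReal.ofReal (dd a b m) = ∫⁻ t, ENNReal.ofReal ((av a m t - av b m t) ^ 2) :=
  ofReal_integral_eq_lintegral_ofReal (integrable_sub_sq ha hb m m)
    (ae_of_all _ fun _ => sq_nonneg _)

theorem measurable_qq {δ : ℝ} (hδ : 0 < δ) (μ : Measure ℂ) [IsProbabilityMeasure μ] :
    Measurable fun θ => ENNReal.ofReal (qq δ (μ.map (pr θ))) := by
  have h : (fun θ => ENNReal.ofReal (qq δ (μ.map (pr θ)))) =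
      fun θ => ∫⁻ t, ENNReal.ofReal (av δ (μ.map (pr θ)) t ^ 2) := by
    funext θ
    exact ofReal_qq hδ _
  rw [h]
  exact Measurable.lintegral_prod_right' (f := fun p : ℝ × ℝ =>
    ENNReal.ofReal (av δ (μ.map (pr p.1)) p.2 ^ 2)) ((measurable_av2 δ μ).pow_const 2).ennreal_ofReal

theorem measurable_dd {a b : ℝ} (ha : 0 < a) (hb : 0 < b) (μ : Measure ℂ)
    [IsProbabilityMeasure μ] :
    Measurable fun θ => ENNReal.ofReal (dd a b (μ.map (pr θ))) := by
  have h : (fun θ => ENNReal.ofReal (dd a b (μ.map (pr θ)))) =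
      fun θ => ∫⁻ t, ENNReal.ofReal ((av a (μ.map (pr θ)) t - av b (μ.map (pr θ)) t) ^ 2) := by
    funext θ
    exact ofReal_dd ha hb _
  rw [h]
  exact Measurable.lintegral_prod_right' (f := fun p : ℝ × ℝ =>
    ENNReal.ofReal ((av a (μ.map (pr p.1)) p.2 - av b (μ.map (pr p.1)) p.2) ^ 2))
    (((measurable_av2 a μ).sub (measurable_av2 b μ)).pow_const 2).ennreal_ofReal

/-- The concentration of the difference is controlled by the squared norm. -/
theorem pair_le (m : Measure ℝ) [IsProbabilityMeasure m] {L r : ℝ} (hL : 0 < L) :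
    ENNReal.ofReal (L - r) * (m.prod m) {p : ℝ × ℝ | |p.1 - p.2| ≤ r} ≤
      ENNReal.ofReal (L ^ 2) * ENNReal.ofReal (qq L m) := by
  have hS : MeasurableSet {q : ℝ × ℝ × ℝ | |q.2.1 - q.1| ≤ L / 2 ∧ |q.2.2 - q.1| ≤ L / 2} := by
    have h1 : Measurable fun q : ℝ × ℝ × ℝ => |q.2.1 - q.1| := by fun_prop
    have h2 : Measurable fun q : ℝ × ℝ × ℝ => |q.2.2 - q.1| := by fun_prop
    exact (measurableSet_le h1 measurable_const).inter (measurableSet_le h2 measurable_const)
  set S : Set (ℝ × ℝ × ℝ) := {q : ℝ × ℝ × ℝ | |q.2.1 - q.1| ≤ L / 2 ∧ |q.2.2 - q.1| ≤ L / 2}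
    with hSdef
  have h1 : (volume.prod (m.prod m)) S = ENNReal.ofReal (L ^ 2) * ENNReal.ofReal (qq L m) := by
    rw [Measure.prod_apply hS, ofReal_qq hL, ← lintegral_const_mul]
    · refine lintegral_congr fun t => ?_
      have h2 : Prod.mk t ⁻¹' S = Icc (t - L / 2) (t + L / 2) ×ˢ Icc (t - L / 2) (t + L / 2) := by
        ext p
        rw [mem_preimage, mem_prod, mem_Icc_av, mem_Icc_av]
        rfl
      rw [h2, Measure.prod_prod, ← ENNReal.ofReal_mul (by positivity)]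
      have h3 : L ^ 2 * av L m t ^ 2 = m.real (Icc (t - L / 2) (t + L / 2)) *
          m.real (Icc (t - L / 2) (t + L / 2)) := by
        unfold av
        field_simp
      rw [h3, ENNReal.ofReal_mul measureReal_nonneg, ofReal_measureReal]
    · exact ((measurable_av L m).pow_const 2).ennreal_ofReal
  rw [← h1, Measure.prod_apply_symm hS]
  have hT : MeasurableSet {p : ℝ × ℝ | |p.1 - p.2| ≤ r} :=
    measurableSet_le (by fun_prop) measurable_const
  rw [← lintegral_indicator_const hT]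
  refine lintegral_mono fun p => ?_
  by_cases hp : p ∈ {p : ℝ × ℝ | |p.1 - p.2| ≤ r}
  · rw [indicator_of_mem hp]
    have h2 : Icc (max p.1 p.2 - L / 2) (min p.1 p.2 + L / 2) ⊆ (fun t => (t, p)) ⁻¹' S := by
      intro t ht
      rw [mem_preimage, hSdef, mem_ofPred_eq]
      have h3 := le_max_left p.1 p.2
      have h4 := le_max_right p.1 p.2
      have h5 := min_le_left p.1 p.2
      have h6 := min_le_right p.1 p.2
      obtain ⟨h7, h8⟩ := ht
      refine ⟨abs_le.2 ⟨?_, ?_⟩, abs_le.2 ⟨?_, ?_⟩⟩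
      all_goals simp only
      all_goals linarith
    refine le_trans ?_ (measure_mono h2)
    rw [Real.volume_Icc]
    refine ENNReal.ofReal_le_ofReal ?_
    have h3 : |p.1 - p.2| ≤ r := hp
    have h4 : max p.1 p.2 - min p.1 p.2 = |p.1 - p.2| := max_sub_min_eq_abs' _ _
    linarith
  · rw [indicator_of_notMem hp]
    exact zero_le

/-- The difference law and the projection. -/
theorem dif_pr (μ : Measure ℂ) [IsProbabilityMeasure μ] (θ r : ℝ) :
    dif μ {w : ℂ | |pr θ w| ≤ r} =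
      ((μ.map (pr θ)).prod (μ.map (pr θ))) {p : ℝ × ℝ | |p.1 - p.2| ≤ r} := by
  have hT : MeasurableSet {p : ℝ × ℝ | |p.1 - p.2| ≤ r} :=
    measurableSet_le (by fun_prop) measurable_const
  have hW : MeasurableSet {w : ℂ | |pr θ w| ≤ r} :=
    measurableSet_le (continuous_pr' θ).abs.measurable measurable_const
  rw [dif, Measure.map_apply (by fun_prop) hW,
    Measure.map_prod_map _ _ (continuous_pr' θ).measurable (continuous_pr' θ).measurable,
    Measure.map_apply (((continuous_pr' θ).measurable).prodMap ((continuous_pr' θ).measurable)) hT]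
  congr 1
  ext p
  have h : pr θ (p.1 - p.2) = pr θ p.1 - pr θ p.2 := by
    simp only [pr, Complex.sub_re, Complex.sub_im]
    ring
  simp only [mem_preimage, mem_ofPred_eq, Prod.map_fst, Prod.map_snd, h]

/-- The norm at scale one. -/
theorem qq_one_le (m : Measure ℝ) [IsProbabilityMeasure m] : qq 1 m ≤ 1 := by
  have h1 : ∀ t, av 1 m t ≤ 1 := by
    intro t
    have h := av_le (δ := 1) one_pos m t
    simpa using h
  have h2 : qq 1 m ≤ ∫ t, av 1 m t := by
    refine integral_mono (integrable_av_sq one_pos m) (integrable_av one_pos m) fun t => ?_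
    have h3 := av_nonneg (δ := 1) one_pos m t
    have h4 := h1 t
    simp only
    nlinarith
  rw [integral_av one_pos] at h2
  simpa using h2

/-- The telescoping estimate. -/
theorem sqrt_qq_le (m : Measure ℝ) [IsProbabilityMeasure m] (k : ℕ) :
    √(qq ((1 / 2 : ℝ) ^ k) m) ≤
      1 + ∑ j ∈ Finset.range k, √(dd ((1 / 2 : ℝ) ^ (j + 1)) ((1 / 2 : ℝ) ^ j) m) := by
  induction k with
  | zero =>
    simp only [pow_zero, Finset.range_zero, Finset.sum_empty, add_zero]
    rw [Real.sqrt_le_left zero_le_one]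
    simpa using qq_one_le m
  | succ k ih =>
    rw [Finset.sum_range_succ]
    have h := mink m ((1 / 2 : ℝ) ^ (k + 1)) ((1 / 2 : ℝ) ^ k) (by positivity) (by positivity)
    linarith

theorem qq_le (m : Measure ℝ) [IsProbabilityMeasure m] {ρ : ℝ} (h0 : 0 < ρ) (h1 : ρ < 1)
    (k : ℕ) :
    qq ((1 / 2 : ℝ) ^ k) m ≤ (1 + (1 - ρ)⁻¹) *
      (1 + ∑ j ∈ Finset.range k,
        (ρ⁻¹) ^ j * dd ((1 / 2 : ℝ) ^ (j + 1)) ((1 / 2 : ℝ) ^ j) m) := by
  have hq := qq_nonneg ((1 / 2 : ℝ) ^ k) m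
  set D : ℕ → ℝ := fun j => dd ((1 / 2 : ℝ) ^ (j + 1)) ((1 / 2 : ℝ) ^ j) m with hD
  have hD0 : ∀ j, 0 ≤ D j := fun j => dd_nonneg _ _ _
  have h2 := sqrt_qq_le m k
  have h3 : qq ((1 / 2 : ℝ) ^ k) m ≤ (1 + ∑ j ∈ Finset.range k, √(D j)) ^ 2 := by
    rw [← Real.sq_sqrt hq]
    exact pow_le_pow_left₀ (Real.sqrt_nonneg _) h2 2
  have h4 : (∑ j ∈ Finset.range (k + 1), (if j = 0 then (1 : ℝ) else ρ ^ (j - 1)) ) ≤
      1 + (1 - ρ)⁻¹ := by
    rw [Finset.sum_range_succ']
    simp only [Nat.add_eq_zero_iff, one_ne_zero, and_false, if_false, if_true,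
      Nat.add_sub_cancel]
    have h5 : ∑ j ∈ Finset.range k, ρ ^ j ≤ (1 - ρ)⁻¹ := by
      have := Summable.sum_le_tsum (f := fun j => ρ ^ j) (Finset.range k)
        (fun j _ => by positivity) (summable_geometric_of_lt_one h0.le h1)
      rwa [tsum_geometric_of_lt_one h0.le h1] at this
    linarith
  have h6 : (1 + ∑ j ∈ Finset.range k, √(D j)) ^ 2 ≤
      (∑ j ∈ Finset.range (k + 1), (if j = 0 then (1 : ℝ) else ρ ^ (j - 1))) *
      (∑ j ∈ Finset.range (k + 1), (if j = 0 then (1 : ℝ) else (ρ⁻¹) ^ (j - 1) * D (j - 1))) := by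
    have h7 : (1 + ∑ j ∈ Finset.range k, √(D j)) =
        ∑ j ∈ Finset.range (k + 1), (if j = 0 then (1 : ℝ) else √(D (j - 1))) := by
      rw [Finset.sum_range_succ']
      simp only [Nat.add_eq_zero_iff, one_ne_zero, and_false, if_false, if_true,
        Nat.add_sub_cancel]
      ring
    rw [h7]
    refine Finset.sum_sq_le_sum_mul_sum_of_sq_le_mul _ ?_ ?_ ?_
    · intro j _
      split_ifs <;> positivity
    · intro j _
      split_ifs
      · positivity
      · exact mul_nonneg (by positivity) (hD0 _)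
    · intro j _
      refine le_of_eq ?_
      split_ifs
      · norm_num
      · rw [Real.sq_sqrt (hD0 _), ← mul_assoc, ← mul_pow, mul_inv_cancel₀ h0.ne', one_pow, one_mul]
  have h8 : (∑ j ∈ Finset.range (k + 1), (if j = 0 then (1 : ℝ) else (ρ⁻¹) ^ (j - 1) *
      D (j - 1))) = 1 + ∑ j ∈ Finset.range k, (ρ⁻¹) ^ j * D j := by
    rw [Finset.sum_range_succ']
    simp only [Nat.add_eq_zero_iff, one_ne_zero, and_false, if_false, if_true,
      Nat.add_sub_cancel]
    ring
  rw [h8] at h6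
  have h9 : 0 ≤ 1 + ∑ j ∈ Finset.range k, (ρ⁻¹) ^ j * D j := by
    have : 0 ≤ ∑ j ∈ Finset.range k, (ρ⁻¹) ^ j * D j :=
      Finset.sum_nonneg fun j _ => mul_nonneg (by positivity) (hD0 j)
    linarith
  calc qq ((1 / 2 : ℝ) ^ k) m ≤ _ := h3
    _ ≤ _ := h6
    _ ≤ _ := mul_le_mul_of_nonneg_right h4 h9

theorem ofReal_qq_le (m : Measure ℝ) [IsProbabilityMeasure m] {ρ : ℝ} (h0 : 0 < ρ) (h1 : ρ < 1)
    (k : ℕ) :
    ENNReal.ofReal (qq ((1 / 2 : ℝ) ^ k) m) ≤ ENNReal.ofReal (1 + (1 - ρ)⁻¹) *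
      (1 + ∑' j : ℕ, ENNReal.ofReal ((ρ⁻¹) ^ j) *
        ENNReal.ofReal (dd ((1 / 2 : ℝ) ^ (j + 1)) ((1 / 2 : ℝ) ^ j) m)) := by
  have h2 : (0 : ℝ) ≤ 1 + (1 - ρ)⁻¹ := by
    have : 0 < (1 - ρ)⁻¹ := inv_pos.2 (by linarith)
    linarith
  refine (ENNReal.ofReal_le_ofReal (qq_le m h0 h1 k)).trans ?_
  rw [ENNReal.ofReal_mul h2]
  refine mul_le_mul_right ?_ _
  rw [ENNReal.ofReal_add one_pos.le (Finset.sum_nonneg fun j _ =>
    mul_nonneg (by positivity) (dd_nonneg _ _ _)), ENNReal.ofReal_one]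
  refine add_le_add_right ?_ _
  rw [ENNReal.ofReal_sum_of_nonneg fun j _ => mul_nonneg (by positivity) (dd_nonneg _ _ _)]
  refine le_trans (le_of_eq (Finset.sum_congr rfl fun j _ => ?_)) (ENNReal.sum_le_tsum _)
  rw [ENNReal.ofReal_mul (by positivity)]

theorem dir1 : S_ENERGY → S_DIR1 := by
  rintro ⟨C, hC, hen⟩ μ _ s hs1 hs2 hfin
  set I : ℝ := (en s μ).toReal with hI
  have hI0 : 0 ≤ I := ENNReal.toReal_nonneg
  have hIe : en s μ ≤ ENNReal.ofReal I := by
    rw [hI, ENNReal.ofReal_toReal hfin.ne]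
  set ρ : ℝ := (1 / 2 : ℝ) ^ ((s - 1) / 2) with hρ
  have hρ0 : 0 < ρ := by positivity
  have hρ1 : ρ < 1 := Real.rpow_lt_one (by norm_num) (by norm_num) (by linarith)
  have hρ2 : ∀ j : ℕ, (((1 / 2 : ℝ) ^ j) : ℝ) ^ (s - 1) = ρ ^ j * ρ ^ j := by
    intro j
    rw [← pow_add, ← two_mul, pow_mul, hρ, ← Real.rpow_natCast _ 2, ← Real.rpow_mul (by norm_num),
      ← Real.rpow_natCast _ j, ← Real.rpow_natCast _ j, ← Real.rpow_mul (by norm_num),
      ← Real.rpow_mul (by norm_num)]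
    congr 1
    push_cast
    ring
  set q : ℕ → ℝ → ℝ≥0∞ := fun k θ => ENNReal.ofReal (qq ((1 / 2 : ℝ) ^ k) (μ.map (pr θ))) with hq
  have hqm : ∀ k, Measurable (q k) := fun k => measurable_qq (by positivity) μ
  refine ⟨fun θ => 8 * (⨆ k, q k θ) + 2, ?_, ?_, ?_, ?_⟩
  · exact ((Measurable.iSup hqm).const_mul _).add_const _
  · intro θ
    simp only [hq, pr_add_two_pi]
  · have hle : ∀ θ, 8 * (⨆ k, q k θ) + 2 ≤ 8 * (ENNReal.ofReal (1 + (1 - ρ)⁻¹) *
        (1 + ∑' j : ℕ, ENNReal.ofReal ((ρ⁻¹) ^ j) *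
        ENNReal.ofReal (dd ((1 / 2 : ℝ) ^ (j + 1)) ((1 / 2 : ℝ) ^ j) (μ.map (pr θ))))) + 2 := by
      intro θ
      refine add_le_add_left (mul_le_mul_right (iSup_le fun k => ?_) _) _
      exact ofReal_qq_le (μ.map (pr θ)) hρ0 hρ1 k
    refine lt_of_le_of_lt (lintegral_mono hle) ?_
    have hmt : ∀ j : ℕ, Measurable fun θ => ENNReal.ofReal ((ρ⁻¹) ^ j) *
        ENNReal.ofReal (dd ((1 / 2 : ℝ) ^ (j + 1)) ((1 / 2 : ℝ) ^ j) (μ.map (pr θ))) := fun j =>
      (measurable_dd (by positivity) (by positivity) μ).const_mul _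
    have hmts : Measurable fun θ => ∑' j : ℕ, ENNReal.ofReal ((ρ⁻¹) ^ j) *
        ENNReal.ofReal (dd ((1 / 2 : ℝ) ^ (j + 1)) ((1 / 2 : ℝ) ^ j) (μ.map (pr θ))) :=
      Measurable.tsum hmt
    rw [lintegral_add_right _ measurable_const, lintegral_const_mul _ (by
      exact ((hmts.const_add 1).const_mul _)), lintegral_const_mul _ (hmts.const_add 1),
      lintegral_add_right _ hmts, lintegral_const, lintegral_const,
      lintegral_tsum fun j => (hmt j).aemeasurable]
    have hv : (volume.restrict (Ioc 0 (2 * Real.pi))) univ ≠ ⊤ := by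
      rw [Measure.restrict_apply_univ, Real.volume_Ioc]
      exact ENNReal.ofReal_ne_top
    have hsum : ∑' j : ℕ, ∫⁻ θ in Ioc 0 (2 * Real.pi), ENNReal.ofReal ((ρ⁻¹) ^ j) *
        ENNReal.ofReal (dd ((1 / 2 : ℝ) ^ (j + 1)) ((1 / 2 : ℝ) ^ j) (μ.map (pr θ))) < ⊤ := by
      have hb : ∀ j : ℕ, ∫⁻ θ in Ioc 0 (2 * Real.pi), ENNReal.ofReal ((ρ⁻¹) ^ j) *
          ENNReal.ofReal (dd ((1 / 2 : ℝ) ^ (j + 1)) ((1 / 2 : ℝ) ^ j) (μ.map (pr θ))) ≤
          ENNReal.ofReal (C * I * ρ ^ j) := by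
        intro j
        rw [lintegral_const_mul _ (measurable_dd (by positivity) (by positivity) μ)]
        have h1 := hen μ s I hs1 hs2 hI0 hIe ((1 / 2 : ℝ) ^ (j + 1)) ((1 / 2 : ℝ) ^ j)
          (by positivity) (pow_le_pow_of_le_one (by norm_num) (by norm_num) (Nat.le_succ j))
        refine (mul_le_mul_right h1 _).trans ?_
        rw [← ENNReal.ofReal_mul (by positivity), hρ2 j]
        refine le_of_eq ?_
        congr 1
        rw [inv_pow]
        field_simp
      refine lt_of_le_of_lt (ENNReal.tsum_le_tsum hb) ?_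
      rw [← ENNReal.ofReal_tsum_of_nonneg (fun j => by positivity)
        ((summable_geometric_of_lt_one hρ0.le hρ1).mul_left _)]
      exact ENNReal.ofReal_lt_top
    refine ENNReal.add_lt_top.2 ⟨ENNReal.mul_lt_top (by norm_num) (ENNReal.mul_lt_top
      ENNReal.ofReal_lt_top (ENNReal.add_lt_top.2 ⟨ENNReal.mul_lt_top (by norm_num) hv.lt_top,
      hsum⟩)), ENNReal.mul_lt_top (by norm_num) hv.lt_top⟩
  · intro θ r hr
    by_cases hr2 : 1 / 2 < r
    · have h1 : dif μ {w : ℂ | |pr θ w| ≤ r} ≤ 1 := by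
        rw [dif_pr]
        exact prob_le_one
      refine h1.trans ?_
      have h2 : (1 : ℝ≥0∞) ≤ ENNReal.ofReal r * 2 := by
        have h3 : (2 : ℝ≥0∞) = ENNReal.ofReal 2 := by norm_num
        rw [h3, ← ENNReal.ofReal_mul hr.le, ← ENNReal.ofReal_one]
        exact ENNReal.ofReal_le_ofReal (by linarith)
      exact h2.trans (mul_le_mul_right (le_add_of_nonneg_left (zero_le)) _)
    · push Not at hr2
      obtain ⟨k, hk1, hk2⟩ := exists_nat_pow_near_of_lt_one (x := 2 * r) (y := (1 / 2 : ℝ))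
        (by positivity) (by linarith) (by norm_num) (by norm_num)
      set L : ℝ := (1 / 2 : ℝ) ^ k with hL
      have hL0 : 0 < L := by positivity
      have hL4 : L < 4 * r := by
        rw [pow_succ] at hk1
        linarith
      have h1 := pair_le (μ.map (pr θ)) (L := L) (r := r) hL0
      rw [← dif_pr] at h1
      set P := dif μ {w : ℂ | |pr θ w| ≤ r} with hP
      have h2 : ENNReal.ofReal (L / 2) * P ≤ ENNReal.ofReal (L ^ 2) * q k θ := by
        refine le_trans (mul_le_mul_left (ENNReal.ofReal_le_ofReal ?_) _) h1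
        linarith
      have h3 : P ≤ ENNReal.ofReal (2 * L) * q k θ := by
        have h4 : P = ENNReal.ofReal (2 / L) * (ENNReal.ofReal (L / 2) * P) := by
          rw [← mul_assoc, ← ENNReal.ofReal_mul (by positivity)]
          have : 2 / L * (L / 2) = 1 := by field_simp
          rw [this, ENNReal.ofReal_one, one_mul]
        rw [h4]
        refine (mul_le_mul_right h2 _).trans (le_of_eq ?_)
        rw [← mul_assoc, ← ENNReal.ofReal_mul (by positivity)]
        congr 2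
        field_simp
      refine h3.trans ?_
      have h5 : q k θ ≤ ⨆ k, q k θ := le_iSup (fun k => q k θ) k
      have h6 : ENNReal.ofReal (2 * L) ≤ ENNReal.ofReal r * 8 := by
        have h7 : (8 : ℝ≥0∞) = ENNReal.ofReal 8 := by norm_num
        rw [h7, ← ENNReal.ofReal_mul hr.le]
        exact ENNReal.ofReal_le_ofReal (by linarith)
      calc ENNReal.ofReal (2 * L) * q k θ ≤ ENNReal.ofReal r * 8 * ⨆ k, q k θ :=
            mul_le_mul' h6 h5
        _ = ENNReal.ofReal r * (8 * ⨆ k, q k θ) := mul_assoc _ _ _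
        _ ≤ ENNReal.ofReal r * (8 * (⨆ k, q k θ) + 2) :=
            mul_le_mul_right (le_add_of_nonneg_right (zero_le)) _

end Pool.Agent.Y462.FA
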